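import Pool.Agent.W534.TateDefs

/-!
# Tensor products of noncommutative motives with the members of families: definitions
-/

set_option autoImplicit false
set_option linter.all false

open CategoryTheory AlgebraicGeometry Polynomial NumberField

universe u v

namespace Pool.Agent.L5helper19.NT.Stm

open Pool.Agent.H914 Pool.Agent.H914.VarClass Pool.Agent.H914.VarClass.Obj
  Pool.Agent.H914.WeilCohomology Pool.Agent.W534

section geo

variable {k : Type u} [Field k] {𝒱 : VarClass k} {ops : CycleOps 𝒱}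

/-- Sums of classes of cycles of all codimensions: the classes of the elements of `K_0(X)_ℚ`. -/
def IsAlg (W : WeilCohomology.{u, v} ops) (X : 𝒱.Obj) (x : W.H X) : Prop :=
  x ∈ AddSubmonoid.closure (⋃ j, algClasses W X j)

/-- Linear combinations of the classes with the property `P`. -/
def Comb (W : WeilCohomology.{u, v} ops) (X : 𝒱.Obj) (P : W.H X → Prop) (x : W.H X) : Prop :=
  x ∈ Submodule.span W.K {y | P y}

/-- `(X, f)` is a direct summand of the noncommutative motive of `X`: `f` is an idempotent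
endomorphism of the cohomology of `X` which is given by a self-correspondence of `X` of arbitrary
degree (an element of `K_0(X × X)_ℚ`). -/
def IsMotive (W : WeilCohomology.{u, v} ops) (X : 𝒱.Obj) (f : W.H X → W.H X) : Prop :=
  (∃ c, IsAlg W (X.prod X) c ∧ ∀ x, f x = actC W c x) ∧ ∀ x, f (f x) = f x

/-- The external product of classes. -/
noncomputable def box (W : WeilCohomology.{u, v} ops) {X Z : 𝒱.Obj} (a : W.H X) (t : W.H Z) :
    W.H (X.prod Z) :=
  W.map (fst X Z) a * W.map (snd X Z) t

/-- `h` is the linear operator with `h (a × t) = f a × e t`. -/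
def IsTensor (W : WeilCohomology.{u, v} ops) {X Z : 𝒱.Obj} (f : W.H X → W.H X)
    (e : W.H Z → W.H Z) (h : W.H (X.prod Z) → W.H (X.prod Z)) : Prop :=
  (∀ (r : W.K) x y, h (r • x + y) = r • h x + h y) ∧ ∀ a t, h (box W a t) = box W (f a) (e t)

variable {W : WeilCohomology.{u, v} ops} {p : ℕ}

/-- The Tate classes of `(X, f)`. -/
def TateClass (Φ : FrobSystem W p) (X : 𝒱.Obj) (f : W.H X → W.H X) (c : W.H X) : Prop :=
  Comb W X (fun c => ∃ j, IsTate Φ X j c) c ∧ f c = c

/-- The classes of the elements of `K_0(X, f)_ℚ`. -/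
def KClass (W : WeilCohomology.{u, v} ops) (X : 𝒱.Obj) (f : W.H X → W.H X) (c : W.H X) : Prop :=
  IsAlg W X c ∧ f c = c

/-- The Tate conjecture for `(X, f)`, over all finite fields. -/
def NCTate (Φ : FrobSystem W p) (X : 𝒱.Obj) (f : W.H X → W.H X) : Prop :=
  ∀ c, TateClass Φ X f c → Comb W X (KClass W X f) c

/-- Up to powers, `z` is in the group generated by `p` and the elements of `B`. -/
def InGroup (p : ℕ) (B : Finset ℂ) (z : ℂ) : Prop :=
  ∃ (N : ℕ) (b : ℤ) (n : ℂ → ℤ), 0 < N ∧ z ^ N = (p : ℂ) ^ b * ∏ x ∈ B, x ^ n x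

/-- `x` is a generalised eigenvector of the `s`-th power of the Frobenius of `X` with the
eigenvalue `μ`. -/
def Eig (Φ : FrobSystem W p) (X : 𝒱.Obj) (s : ℕ) (μ : W.K) (x : W.H X) : Prop :=
  x ∈ Module.End.maxGenEigenspace (W.map (iter (Φ.Fr X) s)).toLinearMap μ

/-- Up to powers, the eigenvalues of the Frobenius of `X` on the cohomology are in the group
generated by `p` and the elements of `B`. -/
def EigenvaluesIn (Φ : FrobSystem W p) (σ : W.K →+* ℂ) (B : Finset ℂ) (X : 𝒱.Obj) : Prop :=
  ∀ μ x, Eig Φ X 1 μ x → x ≠ 0 → InGroup p B (σ μ)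

/-- The strong form of the Tate conjecture: the generalised eigenvectors of the powers of the
Frobenius with eigenvalues which are powers of `p`, up to powers, are algebraic. -/
def StrongTate (Φ : FrobSystem W p) (σ : W.K →+* ℂ) (X : 𝒱.Obj) : Prop :=
  ∀ s μ x, 0 < s → InGroup p ∅ (σ μ) → Eig Φ X s μ x → Comb W X (IsAlg W X) x

/-- The part of the cohomology of `X` which belongs to the eigenvalues of the Frobenius in the
group generated by `p` and the elements of `D`, up to powers, is a direct summand of a sum of copies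
of the cohomology of `Y`, by correspondences of any degrees. -/
def ComesFrom (Φ : FrobSystem W p) (σ : W.K →+* ℂ) (D : Finset ℂ) (Y X : 𝒱.Obj) : Prop :=
  ∃ (r : ℕ) (u : Fin r → W.H (Y.prod X)) (v : Fin r → W.H (X.prod Y)),
    (∀ i, IsAlg W (Y.prod X) (u i) ∧ IsAlg W (X.prod Y) (v i)) ∧
    ∀ μ x, InGroup p D (σ μ) → Eig Φ X 1 μ x → ∑ i, actC W (u i) (actC W (v i) x) = x

/-- The theorem for a member of a family: `R` is the set of the eigenvalues of the Frobenius of the
member, `D` the set of the determinants, `B` a finite set. -/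
def TensorTate (Φ : FrobSystem W p) (σ : W.K →+* ℂ) (R D B : Finset ℂ) : Prop :=
  ∀ (X Z : 𝒱.Obj) (f : W.H X → W.H X) (e : W.H Z → W.H Z),
    EigenvaluesIn Φ σ R X → EigenvaluesIn Φ σ B Z → IsMotive W X f → IsMotive W Z e →
      (∃ h, IsTensor W f e h) ∧ ∀ h, IsTensor W f e h → IsMotive W (X.prod Z) h ∧
        (∀ (Y : 𝒱.Obj) (h' : W.H (Y.prod Z) → W.H (Y.prod Z)), IsTensor W id e h' →
          ComesFrom Φ σ D Y X →
            (NCTate Φ (Y.prod Z) h' → NCTate Φ (X.prod Z) h) ∧
            (f = id → EigenvaluesIn Φ σ D Y → ComesFrom Φ σ D X Y →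
              NCTate Φ (X.prod Z) h → NCTate Φ (Y.prod Z) h')) ∧
        ((∀ d ∈ D, InGroup p ∅ d) → StrongTate Φ σ X →
          (∀ w, TateClass Φ (X.prod Z) h w ↔
            Comb W (X.prod Z) (fun w => ∃ a t, KClass W X f a ∧ TateClass Φ Z e t ∧
              w = box W a t) w) ∧
          (NCTate Φ (X.prod Z) h ↔ (∀ a, KClass W X f a → a = 0) ∨ NCTate Φ Z e))

end geo

/-- The polynomial `x ^ g * h (x + Q / x)`, `g` the degree of `h`. -/
noncomputable def recip (Q : ℕ) (h : ℤ[X]) : ℤ[X] :=
  ∑ j ∈ Finset.range (h.natDegree + 1),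
    C (h.coeff j) * ((X ^ 2 + C (Q : ℤ)) ^ j * X ^ (h.natDegree - j))

/-- The proportion, among the matrices of size `N` with determinant `δ` over the field with `r`
elements, of those whose characteristic polynomial is in `E`. -/
noncomputable def share (N r : ℕ) (δ : ZMod r) (E : Set (ZMod r)[X]) : ℝ :=
  ({B : Matrix (Fin N) (Fin N) (ZMod r) | B.det = δ ∧ B.charpoly ∈ E}.ncard : ℝ) /
    ({B : Matrix (Fin N) (Fin N) (ZMod r) | B.det = δ}.ncard : ℝ)

/-- The symplectic similitudes with multiplier `γ` of the space of dimension `2 g` over the field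
with `l` elements. -/
def similitudes (g l : ℕ) (γ : ZMod l) : Set (Matrix (Fin g ⊕ Fin g) (Fin g ⊕ Fin g) (ZMod l)) :=
  {A | A * Matrix.J (Fin g) (ZMod l) * A.transpose = γ • Matrix.J (Fin g) (ZMod l)}

/-- The proportion, among the symplectic similitudes with multiplier `Q` of the space of dimension
`2 g` over the field with `l` elements, of those whose characteristic polynomial is the reduction of
`recip Q h` for a monic integral polynomial `h` of degree `g` whose reduction is in `E`. -/
noncomputable def shareS (g l Q : ℕ) (E : Set (ZMod l)[X]) : ℝ :=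
  ({A : Matrix (Fin g ⊕ Fin g) (Fin g ⊕ Fin g) (ZMod l) | A ∈ similitudes g l Q ∧
      ∃ h : ℤ[X], h.Monic ∧ h.natDegree = g ∧ h.map (Int.castRingHom (ZMod l)) ∈ E ∧
        A.charpoly = (recip Q h).map (Int.castRingHom (ZMod l))}.ncard : ℝ) /
    ((similitudes g l Q).ncard : ℝ)

/-- Equidistribution: for two large primes `r ≠ r'` and homomorphisms `φ`, `φ'` of the ring of
integers of `K` to the fields with `r` and `r'` elements, the reductions of the tuples `(P j)`,
`(h i)` are distributed, for `n → ∞`, like the characteristic polynomials of independent random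
matrices of size `N j` with determinant `δ j`, and like those (`recip`) of independent random
symplectic similitudes of size `2 g i` with multiplier `q ^ n`. -/
def Equidistributed {K : Type} [Field K] [NumberField K] (q : ℕ) {J J' : Type} [Fintype J]
    [Fintype J'] (N : J → ℕ) (g : J' → ℕ) (S : ℕ → Type) [∀ n, Fintype (S n)]
    (P : ∀ n, S n → J → (𝓞 K)[X]) (h : ∀ n, S n → J' → ℤ[X]) (δ : ℕ → J → 𝓞 K) : Prop :=
  ∃ r₀ : ℕ, ∀ (r r' : ℕ) (φ : 𝓞 K →+* ZMod r) (φ' : 𝓞 K →+* ZMod r'), r.Prime → r'.Prime →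
    r₀ ≤ r → r₀ ≤ r' → r ≠ r' → ∀ ε : ℝ, 0 < ε → ∃ n₀ : ℕ, ∀ n ≥ n₀, Nonempty (S n) →
      ∀ (E : J → Set (ZMod r)[X]) (E' : J → Set (ZMod r')[X]) (D : J' → Set (ZMod r)[X])
        (D' : J' → Set (ZMod r')[X]),
        |({s : S n | (∀ j, (P n s j).map φ ∈ E j ∧ (P n s j).map φ' ∈ E' j) ∧
            ∀ i, (h n s i).map (Int.castRingHom (ZMod r)) ∈ D i ∧
              (h n s i).map (Int.castRingHom (ZMod r')) ∈ D' i}.ncard : ℝ) /
            (Nat.card (S n) : ℝ) -
          (∏ j, share (N j) r (φ (δ n j)) (E j) * share (N j) r' (φ' (δ n j)) (E' j)) *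
            ∏ i, shareS (g i) r (q ^ n) (D i) * shareS (g i) r' (q ^ n) (D' i)| ≤ ε

/-- The set of the complex roots of an integral polynomial over `K`. -/
noncomputable def rts {K : Type} [Field K] [NumberField K] (τ : K →+* ℂ) (P : (𝓞 K)[X]) :
    Finset ℂ :=
  (P.map (τ.comp (algebraMap (𝓞 K) K))).roots.toFinset

/-- The set of the complex roots of an integral polynomial. -/
noncomputable def rtsZ (f : ℤ[X]) : Finset ℂ := (f.map (Int.castRingHom ℂ)).roots.toFinset

/-- A family with large monodromy: the characteristic polynomials `P n s j`, and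
`recip (q ^ n) (h n s i)`, of the Frobenius on the parts `V_j` of unitary type and `V'_i` of
symplectic type of the members `s ∈ S n` over the field with `q ^ n` elements. -/
structure LargeFamily {K : Type} [Field K] [NumberField K] (τ : K →+* ℂ) (q : ℕ) {J J' : Type}
    [Fintype J] [Fintype J'] (N : J → ℕ) (g : J' → ℕ) (S : ℕ → Type) [∀ n, Fintype (S n)]
    (P : ∀ n, S n → J → (𝓞 K)[X]) (h : ∀ n, S n → J' → ℤ[X]) (δ : ℕ → J → 𝓞 K) : Prop where
  three_le : ∀ j, 3 ≤ N j
  pos : ∀ i, 0 < g i
  monic : ∀ n s j, (P n s j).Monic ∧ (P n s j).natDegree = N j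
  monic' : ∀ n s i, (h n s i).Monic ∧ (h n s i).natDegree = g i
  norm : ∀ n s j, ∀ x ∈ rts τ (P n s j), ‖x‖ = Real.sqrt (q ^ n)
  norm' : ∀ n s i, ∀ x ∈ rtsZ (recip (q ^ n) (h n s i)), ‖x‖ = Real.sqrt (q ^ n)
  dvd : ∀ n j, ∃ k : ℕ, δ n j ∣ (q : 𝓞 K) ^ k
  equi : Equidistributed q N g S P h δ

/-- The set of the complex roots of the polynomials `P j` and `recip Q (h i)`. -/
noncomputable def rootSet {K : Type} [Field K] [NumberField K] (τ : K →+* ℂ) {J J' : Type}
    [Fintype J] [Fintype J'] (P : J → (𝓞 K)[X]) (h : J' → ℤ[X]) (Q : ℕ) : Finset ℂ :=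
  (Finset.univ.biUnion fun j => rts τ (P j)) ∪ Finset.univ.biUnion fun i => rtsZ (recip Q (h i))

/-- The set of the constant coefficients of the polynomials `P j`. -/
noncomputable def constSet {K : Type} [Field K] [NumberField K] (τ : K →+* ℂ) {J : Type}
    [Fintype J] (P : J → (𝓞 K)[X]) : Finset ℂ :=
  Finset.univ.image fun j => τ ((P j).coeff 0 : K)

end Pool.Agent.L5helper19.NT.Stm
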