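import Pool.Agent.L5helper19.NT.Fin
import Pool.Agent.L5helper19.NT.Stm
import Pool.Agent.L5helper29.AA.Tuple

/-!
# Comparison of the definitions
-/

set_option autoImplicit false
set_option linter.all false

open CategoryTheory AlgebraicGeometry Polynomial NumberField

universe u v

namespace Pool.Agent.L5helper19.NT

open Pool.Agent.H914 Pool.Agent.H914.VarClass Pool.Agent.H914.VarClass.Obj
  Pool.Agent.H914.WeilCohomology Pool.Agent.H281R3.HT Pool.Agent.W552 Pool.Agent.W534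
  Pool.Agent.TH121.KT Pool.Agent.L5helper29 Pool.Agent.L5helper29.AA
  Pool.Agent.W458.RK

variable {k : Type u} [Field k] {𝒱 : VarClass k} {ops : CycleOps 𝒱}
  {W : WeilCohomology.{u, v} ops} {p : ℕ} {Φ : FrobSystem W p}

lemma eig_iff {X : 𝒱.Obj} {s : ℕ} {μ : W.K} {x : W.H X} :
    Stm.Eig Φ X s μ x ↔ x ∈ (frob Φ X s).maxGenEigenspace μ := Iff.rfl

lemma eig_one {X : 𝒱.Obj} {μ : W.K} {x : W.H X} :
    Stm.Eig Φ X 1 μ x ↔ x ∈ Module.End.maxGenEigenspace (W.map (Φ.Fr X)).toLinearMap μ := by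
  rw [eig_iff, frob_pow_eq', pow_one]

lemma old_eigenvaluesIn {σ : W.K →+* ℂ} {B : Finset ℂ} {X : 𝒱.Obj}
    (h : Stm.EigenvaluesIn Φ σ B X) : ID.EigenvaluesIn Φ σ B X := by
  intro ν hν
  obtain ⟨x, hx⟩ := hν.exists_hasEigenvector
  refine h ν x (eig_one.2 ?_) hx.2
  rw [Module.End.mem_maxGenEigenspace]
  refine ⟨1, ?_⟩
  have h1 := hx.1
  rw [Module.End.mem_eigenspace_iff] at h1
  rw [pow_one, LinearMap.sub_apply, LinearMap.smul_apply, Module.End.one_apply, h1, sub_self]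

lemma old_comesFrom {σ : W.K →+* ℂ} {D : Finset ℂ} {X Y : 𝒱.Obj}
    (h : Stm.ComesFrom Φ σ D Y X) : ComesFrom Φ σ D Y X := by
  obtain ⟨r, u, v, huv, h1⟩ := h
  exact ⟨r, u, v, fun i => (huv i).1, fun i => (huv i).2,
    fun μ x hμ hx => h1 μ x hμ (eig_one.2 hx)⟩

lemma old_strong {σ : W.K →+* ℂ} {X : 𝒱.Obj}
    (h : Stm.StrongTate Φ σ X) : SupersingularAlgebraic Φ X := by
  intro s hs μ N b hN hμ x hx
  have h1 := h s μ x hs ⟨N, b, fun _ => 0, hN, by
    rw [← map_pow, hμ, map_zpow₀, map_natCast, Finset.prod_empty, mul_one]⟩ hx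
  rw [Pool.Agent.L5helper29.NC.algSpan_eq_span]
  exact h1

theorem conv {σ : W.K →+* ℂ} {R D B : Finset ℂ} (h : TensorTate Φ σ R D B) :
    Stm.TensorTate Φ σ R D B := by
  intro X Z f e hX hZ hf he
  have h1 := h X Z (old_eigenvaluesIn hX) (old_eigenvaluesIn hZ) f e hf he
  refine ⟨h1.1, fun t ht => ?_⟩
  obtain ⟨a1, a2, a3⟩ := h1.2 t ht
  refine ⟨a1, ?_, ?_⟩
  · intro Y h' hh' hXY
    obtain ⟨b1, b2⟩ := a2 Y h' hh' (old_comesFrom hXY)
    exact ⟨b1, fun hid hY hYX => b2 (fun x => by rw [hid]; rfl) (old_eigenvaluesIn hY)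
      (old_comesFrom hYX)⟩
  · intro hsup hT
    exact a3 (fun d hd => g_empty (hsup d hd)) (old_strong hT)

section family

variable {K : Type} [Field K] [NumberField K] {τ : K →+* ℂ} {q : ℕ} {J J' : Type}
    [Fintype J] [Fintype J'] {N : J → ℕ} {g : J' → ℕ}
    {S : ℕ → Type} [∀ n, Fintype (S n)] {P : ∀ n, S n → J → (𝓞 K)[X]}
    {h : ∀ n, S n → J' → ℤ[X]} {δ : ℕ → J → 𝓞 K}

lemma weil_ne_zero {Q : ℕ} {f : ℤ[X]} (hf : f.Monic) :
    ((Stm.recip Q f).map (Int.castRingHom ℂ)) ≠ 0 :=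
  ((Pool.Agent.W521.Frob.weil_monic Q hf).map (Int.castRingHom ℂ)).ne_zero

theorem old_family (hF : Stm.LargeFamily τ q N g S P h δ) : BigFamily τ q N g S P h δ where
  three_le := hF.three_le
  pos := hF.pos
  monic := fun n s j => (hF.monic n s j).1
  natDegree := fun n s j => (hF.monic n s j).2
  monic' := fun n s i => (hF.monic' n s i).1
  natDegree' := fun n s i => (hF.monic' n s i).2
  norm := fun n s j x hx => by
    rw [hF.norm n s j x ((mem_rts (hF.monic n s j).1).2 hx)]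
    push_cast
    rfl
  norm' := fun n s i x hx => by
    have h1 : x ∈ Stm.rtsZ (Stm.recip (q ^ n) (h n s i)) := by
      unfold Stm.rtsZ
      rw [Multiset.mem_toFinset, mem_roots (weil_ne_zero (hF.monic' n s i).1), IsRoot,
        Polynomial.eval_map]
      exact hx
    rw [hF.norm' n s i x h1]
    push_cast
    rfl
  dvd := hF.dvd
  equi := hF.equi

/-- **Almost all tuples of members.** -/
theorem almost_tuples [IsAlgClosed W.K] (hp : 1 < p) (σ : W.K →+* ℂ) {a : ℕ} (ha : 0 < a)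
    (hq : q = p ^ a) (hF : Stm.LargeFamily τ q N g S P h δ) (B : Finset ℂ)
    (hB : ∀ b ∈ B, b ≠ 0 ∧ IsIntegral ℤ b) (m : ℕ) (ε : ℝ) (hε : 0 < ε) :
    ∃ n₀ : ℕ, ∀ n ≥ n₀, ({s : Fin m → S n | ¬ Stm.TensorTate Φ σ
      (Stm.rootSet τ (fun x : Fin m × J => P n (s x.1) x.2)
        (fun x : Fin m × J' => h n (s x.1) x.2) (q ^ n))
      (Stm.constSet τ (fun x : Fin m × J => P n (s x.1) x.2)) B}.ncard : ℝ) ≤
      ε * (Nat.card (S n) : ℝ) ^ m := by
  classical
  obtain ⟨n₀, hn₀⟩ := almost_members (W := W) (Φ := Φ) hp σ ha hq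
    (bigFamily_pow (old_family hF) m) B hB ε hε
  refine ⟨n₀, fun n hn => ?_⟩
  have h1 := hn₀ n hn
  have h2 : (Nat.card (Fin m → S n) : ℝ) = (Nat.card (S n) : ℝ) ^ m := by
    rw [Nat.card_fun]
    simp
  rw [h2] at h1
  refine le_trans (Nat.cast_le.2 (Set.ncard_le_ncard ?_ (Set.toFinite _))) h1
  intro s hs hgood
  exact hs (conv hgood)

end family

end Pool.Agent.L5helper19.NT
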