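import Pool.Agent.L5helper29.AA.Half
import Pool.Agent.L5helper29.ID.Def

/-!
# Multiplicative relations between the elements of blocks and of a finite set
-/

set_option autoImplicit false
set_option linter.all false

namespace Pool.Agent.L5helper19.NT

open Finset Pool.Agent.L5helper29 Pool.Agent.L5helper29.AA Pool.Agent.L5helper29.AS
  Pool.Agent.L5helper29.ID

section group

variable {p : ℕ} {B : Finset ℂ}

lemma g_one : InGroup p B 1 := ⟨1, 0, fun _ => 0, one_pos, by simp⟩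

lemma g_base (l : ℤ) : InGroup p B ((p : ℂ) ^ l) := ⟨1, l, fun _ => 0, one_pos, by simp⟩

lemma g_mul (hp : p ≠ 0) (hB : ∀ b ∈ B, b ≠ 0) {z w : ℂ} (hz : InGroup p B z)
    (hw : InGroup p B w) : InGroup p B (z * w) := by
  obtain ⟨N, b, n, hN, h⟩ := hz
  obtain ⟨M, c, m, hM, h'⟩ := hw
  have hpC : (p : ℂ) ≠ 0 := by exact_mod_cast hp
  refine ⟨N * M, b * M + c * N, fun x => n x * M + m x * N, Nat.mul_pos hN hM, ?_⟩
  have h1 : ∏ x ∈ B, x ^ (n x * M + m x * N) =
      (∏ x ∈ B, x ^ n x) ^ M * (∏ x ∈ B, x ^ m x) ^ N := by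
    rw [← prod_pow, ← prod_pow, ← prod_mul_distrib]
    refine prod_congr rfl fun x hx => ?_
    rw [zpow_add₀ (hB x hx), zpow_mul, zpow_mul, zpow_natCast, zpow_natCast]
  rw [h1, zpow_add₀ hpC, zpow_mul, zpow_mul, zpow_natCast, zpow_natCast, mul_pow, pow_mul, h,
    mul_comm N M, pow_mul, h']
  ring

lemma g_inv {z : ℂ} (hz : InGroup p B z) : InGroup p B z⁻¹ := by
  obtain ⟨N, b, n, hN, h⟩ := hz
  refine ⟨N, -b, fun x => - n x, hN, ?_⟩
  rw [inv_pow, h, mul_inv, zpow_neg, ← prod_inv_distrib]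
  congr 1
  exact prod_congr rfl fun x _ => (zpow_neg x _).symm

lemma g_pow (hp : p ≠ 0) (hB : ∀ b ∈ B, b ≠ 0) {z : ℂ} (hz : InGroup p B z) (n : ℕ) :
    InGroup p B (z ^ n) := by
  induction n with
  | zero => rw [pow_zero]; exact g_one
  | succ n ih => rw [pow_succ]; exact g_mul hp hB ih hz

lemma g_zpow (hp : p ≠ 0) (hB : ∀ b ∈ B, b ≠ 0) {z : ℂ} (hz : InGroup p B z) (n : ℤ) :
    InGroup p B (z ^ n) := by
  cases n with
  | ofNat n => rw [Int.ofNat_eq_natCast, zpow_natCast]; exact g_pow hp hB hz n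
  | negSucc n => rw [zpow_negSucc]; exact g_inv (g_pow hp hB hz _)

lemma g_of_pow {z : ℂ} {n : ℕ} (hn : 0 < n) (hz : InGroup p B (z ^ n)) : InGroup p B z := by
  obtain ⟨N, b, m, hN, h⟩ := hz
  exact ⟨n * N, b, m, Nat.mul_pos hn hN, by rw [pow_mul, h]⟩

lemma g_prod (hp : p ≠ 0) (hB : ∀ b ∈ B, b ≠ 0) {ι : Type*} (s : Finset ι) {f : ι → ℂ}
    (h : ∀ i ∈ s, InGroup p B (f i)) : InGroup p B (∏ i ∈ s, f i) := by
  classical
  induction s using Finset.induction_on with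
  | empty => rw [prod_empty]; exact g_one
  | insert a s ha ih =>
    rw [prod_insert ha]
    exact g_mul hp hB (h a (mem_insert_self a s)) (ih fun i hi => h i (mem_insert_of_mem hi))

lemma g_mem {x : ℂ} (hx : x ∈ B) : InGroup p B x := by
  classical
  refine ⟨1, 0, Pi.single x 1, one_pos, ?_⟩
  rw [prod_eq_single_of_mem x hx]
  · simp
  · intro y _ hy
    rw [Pi.single_eq_of_ne hy, zpow_zero]

lemma g_empty {z : ℂ} (h : InGroup p ∅ z) : ∃ (M : ℕ) (l : ℤ), 0 < M ∧ z ^ M = (p : ℂ) ^ l := by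
  obtain ⟨N, b, n, hN, h⟩ := h
  exact ⟨N, b, hN, by rw [h, prod_empty, mul_one]⟩

end group

variable {J J' : Type} [Fintype J] [DecidableEq J] [Fintype J'] [DecidableEq J']

/-- all elements of the sets -/
noncomputable def allOf (A : J → Finset ℂ) (A' : J' → Finset ℂ) : Finset ℂ :=
  (univ.biUnion A) ∪ (univ.biUnion A')

lemma mem_allOf {A : J → Finset ℂ} {A' : J' → Finset ℂ} {x : ℂ} :
    x ∈ allOf A A' ↔ ∃ o, x ∈ both A A' o := by
  unfold allOf both
  rw [mem_union, mem_biUnion, mem_biUnion, Sum.exists]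
  simp

lemma mono_single {I : Type} [Fintype I] [DecidableEq I] (A : I → Finset ℂ) (o : I) (x : A o)
    (c : ℤ) : mono A (Pi.single o (Pi.single x c)) = (x : ℂ) ^ c := by
  unfold mono
  rw [prod_eq_single o]
  · rw [prod_eq_single x]
    · rw [Pi.single_eq_same, Pi.single_eq_same]
    · intro y _ hy
      rw [Pi.single_eq_same, Pi.single_eq_of_ne hy, zpow_zero]
    · intro h
      exact absurd (mem_univ _) h
  · intro i _ hi
    refine prod_eq_one fun y _ => ?_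
    rw [Pi.single_eq_of_ne hi, Pi.zero_apply, zpow_zero]
  · intro h
    exact absurd (mem_univ _) h

/-- a product over all elements as a monomial -/
lemma prod_allOf {A : J → Finset ℂ} {A' : J' → Finset ℂ}
    (h0 : ∀ o, ∀ x ∈ both A A' o, x ≠ 0) (n : ℂ → ℤ) (s : Finset ℂ) (hs : s ⊆ allOf A A') :
    ∃ m : ∀ o, both A A' o → ℤ, ∏ x ∈ s, x ^ n x = mono (both A A') m := by
  classical
  induction s using Finset.induction_on with
  | empty => exact ⟨fun _ _ => 0, by simp [mono]⟩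
  | insert a s ha ih =>
    obtain ⟨m, hm⟩ := ih fun x hx => hs (mem_insert_of_mem hx)
    obtain ⟨o, ho⟩ := mem_allOf.1 (hs (mem_insert_self a s))
    refine ⟨Pi.single o (Pi.single ⟨a, ho⟩ (n a)) + m, ?_⟩
    rw [mono_add h0, mono_single, prod_insert ha, hm]

/-- **Separation.** -/
theorem sep_core {p a : ℕ} (hp : 1 < p) (ha : 0 < a) {A : J → Finset ℂ} {A' : J' → Finset ℂ}
    {B D : Finset ℂ} (rel : RelM (p ^ a) A A' B) (h0 : ∀ o, ∀ x ∈ both A A' o, x ≠ 0)
    (hB0 : ∀ b ∈ B, b ≠ 0) (hD0 : ∀ b ∈ D, b ≠ 0)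
    (hd : ∀ i, ∀ x ∈ A' i, ((p ^ a : ℕ) : ℂ) / x ∈ A' i)
    (hdet : ∀ j, InGroup p D (∏ x ∈ A j, x))
    {z w : ℂ} (hz : InGroup p (allOf A A') z) (hw : InGroup p B w) {N : ℕ} {l : ℤ} (hN : 0 < N)
    (h : (z * w) ^ N = (p : ℂ) ^ l) : InGroup p D z := by
  classical
  have hp0 : p ≠ 0 := by omega
  have hpC : (p : ℂ) ≠ 0 := by exact_mod_cast hp0
  obtain ⟨N₁, b₁, n₁, hN₁, e₁⟩ := hz
  obtain ⟨N₂, b₂, n₂, hN₂, e₂⟩ := hw
  obtain ⟨m, hm⟩ := prod_allOf h0 n₁ (allOf A A') (subset_refl _)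
  rw [hm] at e₁
  set M := mono (both A A') m with hM
  have hM0 : M ≠ 0 := by
    rw [hM]
    unfold mono
    exact prod_ne_zero_iff.2 fun o _ => prod_ne_zero_iff.2 fun x _ => zpow_ne_zero _ (h0 o x x.2)
  set R := ∏ x ∈ B, x ^ n₂ x with hR
  have hR0 : R ≠ 0 := prod_ne_zero_iff.2 fun x hx => zpow_ne_zero _ (hB0 x hx)
  -- the relation
  have key : M ^ (N * N₂ * a) = ((p ^ a : ℕ) : ℂ) ^ (l * N₁ * N₂ - b₁ * N * N₂ - b₂ * N * N₁) *
      ∏ x ∈ B, x ^ (- n₂ x * (N * N₁ * a : ℕ)) := by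
    have h1 : ∏ x ∈ B, x ^ (- n₂ x * (N * N₁ * a : ℕ)) = (R ^ (N * N₁ * a))⁻¹ := by
      rw [hR, ← prod_pow, ← prod_inv_distrib]
      refine prod_congr rfl fun x _ => ?_
      rw [neg_mul, zpow_neg, zpow_mul, zpow_natCast]
    have h2 := congrArg (fun y => y ^ (N₁ * N₂ * a)) h
    beta_reduce at h2
    have h3 : ((z * w) ^ N) ^ (N₁ * N₂ * a) =
        (z ^ N₁) ^ (N * N₂ * a) * (w ^ N₂) ^ (N * N₁ * a) := by ring
    rw [h3, e₁, e₂] at h2
    rw [h1, eq_mul_inv_iff_mul_eq₀ (pow_ne_zero _ hR0)]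
    have h4 : ((p ^ a : ℕ) : ℂ) ^ (l * N₁ * N₂ - b₁ * N * N₂ - b₂ * N * N₁) =
        ((p : ℂ) ^ l) ^ (N₁ * N₂ * a) / (((p : ℂ) ^ b₁) ^ (N * N₂ * a) *
          ((p : ℂ) ^ b₂) ^ (N * N₁ * a)) := by
      rw [← zpow_natCast ((p : ℂ) ^ l), ← zpow_natCast ((p : ℂ) ^ b₁),
        ← zpow_natCast ((p : ℂ) ^ b₂), ← zpow_mul, ← zpow_mul, ← zpow_mul, ← zpow_add₀ hpC,
        ← zpow_sub₀ hpC, Nat.cast_pow, ← zpow_natCast (p : ℂ) a, ← zpow_mul]
      congr 1
      push_cast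
      ring
    rw [h4, ← h2]
    have h5 : ((p : ℂ) ^ b₁) ^ (N * N₂ * a) ≠ 0 := pow_ne_zero _ (zpow_ne_zero _ hpC)
    have h6 : ((p : ℂ) ^ b₂) ^ (N * N₁ * a) ≠ 0 := pow_ne_zero _ (zpow_ne_zero _ hpC)
    rw [eq_div_iff (mul_ne_zero h5 h6), mul_pow ((p : ℂ) ^ b₁), mul_pow ((p : ℂ) ^ b₂)]
    ring
  obtain ⟨r1, r2⟩ := rel m (N * N₂ * a) (by positivity) _ _ key
  -- the monomial
  have hMD : InGroup p D M := by
    rw [hM]
    unfold mono
    refine g_prod hp0 hD0 _ fun o _ => ?_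
    rcases o with j | i
    · -- unitary blocks
      rcases isEmpty_or_nonempty (both A A' (Sum.inl j)) with he | ⟨⟨x₀⟩⟩
      · rw [Finset.univ_eq_empty, prod_empty]
        exact g_one
      · have h1 : ∏ x : both A A' (Sum.inl j), (x : ℂ) ^ m (Sum.inl j) x =
            (∏ x ∈ A j, x) ^ m (Sum.inl j) x₀ := by
          rw [prod_congr rfl fun x _ => by rw [r1 j x x₀], prod_zpow]
          congr 1
          exact prod_coe_sort (A j) (fun x => x)
        rw [h1]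
        exact g_zpow hp0 hD0 (hdet j) _
    · -- symplectic blocks
      refine g_of_pow two_pos ?_
      have hne : ∀ x : both A A' (Sum.inr i), (x : ℂ) ≠ 0 := fun x => h0 _ x x.2
      let ι : both A A' (Sum.inr i) ≃ both A A' (Sum.inr i) :=
        { toFun := fun x => ⟨((p ^ a : ℕ) : ℂ) / x, hd i x x.2⟩
          invFun := fun x => ⟨((p ^ a : ℕ) : ℂ) / x, hd i x x.2⟩
          left_inv := fun x => Subtype.ext (by
            change ((p ^ a : ℕ) : ℂ) / (((p ^ a : ℕ) : ℂ) / x) = x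
            have h1 := hne x
            have h2 : ((p ^ a : ℕ) : ℂ) ≠ 0 := by
              push_cast
              exact pow_ne_zero _ hpC
            field_simp)
          right_inv := fun x => Subtype.ext (by
            change ((p ^ a : ℕ) : ℂ) / (((p ^ a : ℕ) : ℂ) / x) = x
            have h1 := hne x
            have h2 : ((p ^ a : ℕ) : ℂ) ≠ 0 := by
              push_cast
              exact pow_ne_zero _ hpC
            field_simp) }
      have h1 : (∏ x : both A A' (Sum.inr i), (x : ℂ) ^ m (Sum.inr i) x) ^ 2 =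
          ∏ x : both A A' (Sum.inr i), ((p : ℂ) ^ (a * m (Sum.inr i) x)) := by
        have h2 : ∏ x : both A A' (Sum.inr i), (x : ℂ) ^ m (Sum.inr i) x =
            ∏ x : both A A' (Sum.inr i), (((p ^ a : ℕ) : ℂ) / x) ^ m (Sum.inr i) x := by
          rw [← Equiv.prod_comp ι (fun x => (x : ℂ) ^ m (Sum.inr i) x)]
          refine prod_congr rfl fun x _ => ?_
          have h3 := r2 i x (ι x) (by
            change (x : ℂ) * (((p ^ a : ℕ) : ℂ) / x) = _
            have h1 := hne x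
            field_simp)
          rw [← h3]
          rfl
        rw [pow_two]
        nth_rewrite 2 [h2]
        rw [← prod_mul_distrib]
        refine prod_congr rfl fun x _ => ?_
        rw [← mul_zpow, mul_div_cancel₀ _ (hne x), Nat.cast_pow, ← zpow_natCast (p : ℂ) a,
          ← zpow_mul]
      rw [h1]
      exact g_prod hp0 hD0 _ fun x _ => g_base _
  refine g_of_pow hN₁ ?_
  rw [e₁]
  exact g_mul hp0 hD0 (g_base _) hMD

end Pool.Agent.L5helper19.NT
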