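import Pool.Agent.L5helper29.NC.Def
import Pool.Agent.L5helper29.ID.Def
import Pool.Agent.L5helper29.AA.FamM

/-!
# Tensor products of noncommutative motives with the members of families: definitions
-/

set_option autoImplicit false
set_option linter.all false

open CategoryTheory AlgebraicGeometry Polynomial NumberField

universe u v

namespace Pool.Agent.L5helper19.NT

open Pool.Agent.H914 Pool.Agent.H914.VarClass Pool.Agent.H914.VarClass.Obj
  Pool.Agent.H914.WeilCohomology Pool.Agent.H281R3.HT Pool.Agent.W552 Pool.Agent.W534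
  Pool.Agent.TH121.KT Pool.Agent.L5helper29.NC Pool.Agent.L5helper29 Pool.Agent.L5helper29.AA

variable {k : Type u} [Field k] {𝒱 : VarClass k} {ops : CycleOps 𝒱}
  {W : WeilCohomology.{u, v} ops} {p : ℕ}

/-- The part of the cohomology of `X` which belongs to the eigenvalues of the Frobenius in the
group generated by `p` and the elements of `D`, up to powers, is a direct summand of a sum of copies
of the cohomology of `Y`, by correspondences of any degrees. -/
def ComesFrom (Φ : FrobSystem W p) (σ : W.K →+* ℂ) (D : Finset ℂ) (Y X : 𝒱.Obj) : Prop :=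
  ∃ (r : ℕ) (u : Fin r → W.H (Y.prod X)) (v : Fin r → W.H (X.prod Y)),
    (∀ i, AS W (Y.prod X) (u i)) ∧ (∀ i, AS W (X.prod Y) (v i)) ∧
    ∀ (μ : W.K) (x : W.H X), ID.InGroup p D (σ μ) →
      x ∈ Module.End.maxGenEigenspace (W.map (Φ.Fr X)).toLinearMap μ →
        ∑ i, actC W (u i) (actC W (v i) x) = x

/-- The theorem for a member of a family: `R` is the set of the eigenvalues of the Frobenius of the
member, `D` the set of the determinants, `B` a finite set. -/
def TensorTate (Φ : FrobSystem W p) (σ : W.K →+* ℂ) (R D B : Finset ℂ) : Prop :=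
  ∀ (X Z : 𝒱.Obj), ID.EigenvaluesIn Φ σ R X → ID.EigenvaluesIn Φ σ B Z →
    ∀ (f : W.H X → W.H X) (e : W.H Z → W.H Z), IsMotive W X f → IsMotive W Z e →
      (∃ h, IsTensor W f e h) ∧ ∀ h, IsTensor W f e h → IsMotive W (X.prod Z) h ∧
        (∀ (Y : 𝒱.Obj) (h' : W.H (Y.prod Z) → W.H (Y.prod Z)), IsTensor W (fun y => y) e h' →
          ComesFrom Φ σ D Y X →
            (NCTateConj Φ (Y.prod Z) h' → NCTateConj Φ (X.prod Z) h) ∧
            ((∀ x, f x = x) → ID.EigenvaluesIn Φ σ D Y → ComesFrom Φ σ D X Y →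
              NCTateConj Φ (X.prod Z) h → NCTateConj Φ (Y.prod Z) h')) ∧
        ((∀ d ∈ D, ∃ (M : ℕ) (l : ℤ), 0 < M ∧ d ^ M = (p : ℂ) ^ l) →
          SupersingularAlgebraic Φ X →
            (∀ w, IsTateClass Φ (X.prod Z) h w ↔ w ∈ Submodule.span W.K
              {w | ∃ a t, IsKZeroClass W X f a ∧ IsTateClass Φ Z e t ∧ w = ext W a t}) ∧
            (NCTateConj Φ (X.prod Z) h ↔ (∀ a, IsKZeroClass W X f a → a = 0) ∨
              NCTateConj Φ Z e))

/-- The set of the complex roots of the polynomials `P j` and `weil Q (h i)`. -/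
noncomputable def rootSet {K : Type} [Field K] [NumberField K] (τ : K →+* ℂ) {J J' : Type}
    [Fintype J] [Fintype J'] (P : J → (𝓞 K)[X]) (h : J' → ℤ[X]) (Q : ℕ) : Finset ℂ :=
  (Finset.univ.biUnion fun j => rts τ (P j)) ∪ (Finset.univ.biUnion fun i => rtsZ (W521.Frob.weil Q (h i)))

/-- The set of the constant coefficients of the polynomials `P j`. -/
noncomputable def constSet {K : Type} [Field K] [NumberField K] (τ : K →+* ℂ) {J : Type}
    [Fintype J] (P : J → (𝓞 K)[X]) : Finset ℂ :=
  Finset.univ.image fun j => τ ((P j).coeff 0 : K)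

end Pool.Agent.L5helper19.NT
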