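import Pool.Agent.L5helper29.NC.Fin
import Pool.Agent.L5helper19.NT.Core
import Pool.Agent.L5helper19.NT.Def

/-!
# Varieties whose Frobenius eigenvalues are separated, up to a part coming from another variety
-/

set_option autoImplicit false
set_option linter.all false

open CategoryTheory AlgebraicGeometry
open scoped TensorProduct

universe u v

namespace Pool.Agent.L5helper19.NT

open Pool.Agent.H914 Pool.Agent.H914.VarClass Pool.Agent.H914.VarClass.Obj
  Pool.Agent.H914.WeilCohomology Pool.Agent.H281R3.HT Pool.Agent.W552 Pool.Agent.W534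
  Pool.Agent.W458.RK Pool.Agent.W458.MF Pool.Agent.TH132.A Pool.Agent.TH121.KT
  Pool.Agent.L5helper29.NC Pool.Agent.L5helper29 Pool.Agent.Y133.Half Pool.Agent.Y133.Half.Sys

variable {k : Type u} [Field k] {𝒱 : VarClass k} {ops : CycleOps 𝒱}
  {W : WeilCohomology.{u, v} ops} {X Y Z U : 𝒱.Obj} {p : ℕ} {Φ : FrobSystem W p}

/-- The predicate does not change if the number is multiplied by a power of `p`, or replaced by a
power. -/
structure Inv (p : ℕ) (P : ℂ → Prop) : Prop where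
  pow : ∀ z (n : ℕ), 0 < n → (P (z ^ n) ↔ P z)
  mul : ∀ z (l : ℤ), P ((p : ℂ) ^ l * z) ↔ P z

lemma Inv.and {P Q : ℂ → Prop} (hP : Inv p P) (hQ : Inv p Q) : Inv p (fun z => P z ∧ Q z) :=
  ⟨fun z n hn => and_congr (hP.pow z n hn) (hQ.pow z n hn),
    fun z l => and_congr (hP.mul z l) (hQ.mul z l)⟩

lemma Inv.not {P : ℂ → Prop} (hP : Inv p P) : Inv p (fun z => ¬ P z) :=
  ⟨fun z n hn => not_congr (hP.pow z n hn), fun z l => not_congr (hP.mul z l)⟩

lemma inv_group (hp : p ≠ 0) {B : Finset ℂ} (hB : ∀ b ∈ B, b ≠ 0) :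
    Inv p (fun z => ID.InGroup p B z) := by
  refine ⟨fun z n hn => ⟨g_of_pow hn, fun h => g_pow hp hB h n⟩, fun z l => ⟨fun h => ?_,
    fun h => g_mul hp hB (g_base l) h⟩⟩
  have h1 := g_mul hp hB (g_base (-l)) h
  have hpC : (p : ℂ) ≠ 0 := by exact_mod_cast hp
  rwa [← mul_assoc, ← zpow_add₀ hpC, neg_add_cancel, zpow_zero, one_mul] at h1

/-- The sums of generalised eigenvectors of powers of the Frobenius with eigenvalues with the
property `P`. -/
def Gen (Φ : FrobSystem W p) (σ : W.K →+* ℂ) (P : ℂ → Prop) (X : 𝒱.Obj) :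
    Submodule W.K (W.H X) :=
  Submodule.span W.K {x | ∃ (s : ℕ) (μ : W.K), 0 < s ∧ P (σ μ) ∧
    x ∈ (frob Φ X s).maxGenEigenspace μ}

lemma frob_mul_pow (s t : ℕ) : frob Φ X (s * t) = frob Φ X s ^ t := by
  rw [frob_pow_eq', frob_pow_eq', pow_mul]

/-- The operators given by Tate classes and the Frobenius. -/
lemma op_frob (hp0 : (p : W.K) ≠ 0) {w : W.H (X.prod Z)} {j : ℕ} (hw : IsTate Φ (X.prod Z) j w) :
    ∃ (a b : ℕ), 0 < a ∧ 0 < b ∧ ∀ t : ℕ, 0 < t → ∃ l : ℤ,
      ∀ x, frob Φ Z (b * t) (W.corr w x) = ((p : W.K) ^ l) • W.corr w (frob Φ X (a * t) x) := by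
  obtain ⟨A, B, C, hA, hB, hC, hAB, hAC, hcomm⟩ := Pool.Agent.Y138.TU.exists_comm Φ X Z
  obtain ⟨hgr, s, hs, hws⟩ := Pool.Agent.Y133.Half.isTate_iff.1 hw
  refine ⟨B * s, C * s, Nat.mul_pos hB hs, Nat.mul_pos hC hs, fun t ht => ?_⟩
  set F := frob Φ (X.prod Z) (A * (s * t)) with hF
  have hFw : F w = ((card Φ (X.prod Z) (A * (s * t)) : W.K) ^ j) • w := by
    rw [hF, show A * (s * t) = s * (A * t) by ring]
    exact Pool.Agent.Y133.Half.eig_mul hws (A * t)
  have hfst : ∀ x, F (W.map (fst X Z) x) = W.map (fst X Z) (frob Φ X (B * (s * t)) x) := by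
    intro x
    have h1 := hcomm (s * t) (x ⊗ₜ 1)
    change F (W.map (fst X Z) x * W.map (snd X Z) 1) =
      W.map (fst X Z) (frob Φ X (B * (s * t)) x) *
        W.map (snd X Z) (W.map (W534.iter (Φ.Fr Z) (C * (s * t))) 1) at h1
    rw [map_one, mul_one, map_one, map_one, mul_one] at h1
    exact h1
  have hsnd : ∀ y, F (W.map (snd X Z) y) = W.map (snd X Z) (frob Φ Z (C * (s * t)) y) := by
    intro y
    have h1 := hcomm (s * t) (1 ⊗ₜ y)
    change F (W.map (fst X Z) 1 * W.map (snd X Z) y) =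
      W.map (fst X Z) (W.map (W534.iter (Φ.Fr X) (B * (s * t))) 1) *
        W.map (snd X Z) (frob Φ Z (C * (s * t)) y) at h1
    rw [map_one, one_mul, map_one, map_one, one_mul] at h1
    exact h1
  have hab : A * (s * t) * Φ.e (X.prod Z) = C * (s * t) * Φ.e Z := by
    calc A * (s * t) * Φ.e (X.prod Z) = (A * Φ.e (X.prod Z)) * (s * t) := by ring
      _ = _ := by rw [hAC]; ring
  have hc : card Φ (X.prod Z) (A * (s * t)) = card Φ Z (C * (s * t)) := card_eq_of Φ hab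
  have hq : (card Φ Z (C * (s * t)) : W.K) ≠ 0 := card_ne Φ _
  have hcard : (card Φ Z (C * (s * t)) : W.K) = (p : W.K) ^ (Φ.e Z * (C * (s * t))) := by
    rw [W534.card, Nat.cast_pow]
  refine ⟨((Φ.e Z * (C * (s * t)) : ℕ) : ℤ) * ((Z.dim : ℤ) + j - (X.prod Z).dim), fun x => ?_⟩
  have h4 := Pool.Agent.Y133.Half.push_frob (Φ := Φ) (snd X Z) hab (fun y => hsnd y)
    (w * W.map (fst X Z) x)
  have h5 : W.map (W534.iter (Φ.Fr (X.prod Z)) (A * (s * t))) (w * W.map (fst X Z) x) =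
      ((card Φ Z (C * (s * t)) : W.K) ^ j) • (w * W.map (fst X Z) (frob Φ X (B * (s * t)) x)) := by
    rw [map_mul]
    have e1 : W.map (W534.iter (Φ.Fr (X.prod Z)) (A * (s * t))) w = F w := rfl
    have e2 : W.map (W534.iter (Φ.Fr (X.prod Z)) (A * (s * t))) (W.map (fst X Z) x) =
      F (W.map (fst X Z) x) := rfl
    rw [e1, e2, hFw, hfst, hc, smul_mul_assoc]
  rw [h5, map_smul, smul_smul] at h4
  have h6 : W.push (snd X Z) (w * W.map (fst X Z) x) = W.corr w x := rfl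
  have h7 : W.push (snd X Z) (w * W.map (fst X Z) (frob Φ X (B * (s * t)) x)) =
    W.corr w (frob Φ X (B * (s * t)) x) := rfl
  rw [h6, h7] at h4
  have h8 : (card Φ Z (C * (s * t)) : W.K) ^ (X.prod Z).dim ≠ 0 := pow_ne_zero _ hq
  apply smul_right_injective _ h8
  change (card Φ Z (C * (s * t)) : W.K) ^ (X.prod Z).dim •
      frob Φ Z (C * s * t) (W.corr w x) = (card Φ Z (C * (s * t)) : W.K) ^ (X.prod Z).dim •
      (p : W.K) ^ (((Φ.e Z * (C * (s * t)) : ℕ) : ℤ) * ((Z.dim : ℤ) + j - (X.prod Z).dim)) •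
        W.corr w (frob Φ X (B * s * t) x)
  rw [mul_assoc C, mul_assoc B]
  refine h4.symm.trans ?_
  rw [smul_smul]
  congr 1
  rw [← pow_add, ← zpow_natCast, ← zpow_natCast, hcard, ← zpow_natCast (p : W.K), ← zpow_mul,
    ← zpow_mul, ← zpow_add₀ hp0]
  congr 1
  push_cast
  ring

/-- The operators given by Tate classes preserve the sums of generalised eigenvectors. -/
lemma gen_of_tate (hp0 : (p : W.K) ≠ 0) (σ : W.K →+* ℂ) {P : ℂ → Prop} (hP : Inv p P)
    {w : W.H (X.prod Z)} {j : ℕ} (hw : IsTate Φ (X.prod Z) j w) {x : W.H X}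
    (hx : x ∈ Gen Φ σ P X) : W.corr w x ∈ Gen Φ σ P Z := by
  obtain ⟨a, b, ha, hb, h⟩ := op_frob hp0 hw
  unfold Gen at hx
  induction hx using Submodule.span_induction with
  | mem x hx =>
    obtain ⟨s, μ, hs, hμ, hx⟩ := hx
    obtain ⟨l, hl⟩ := h s hs
    have h1 : x ∈ (frob Φ X (a * s)).maxGenEigenspace (μ ^ a) := by
      rw [mul_comm, frob_mul_pow]
      exact gen_pow_of_gen hx a
    have h2 := gen_map (θ := W.corr w) (T := frob Φ X (a * s)) (T' := frob Φ Z (b * s))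
      (c := (p : W.K) ^ l) hl h1
    refine Submodule.subset_span ⟨b * s, _, Nat.mul_pos hb hs, ?_, h2⟩
    rw [map_mul, map_zpow₀, map_natCast, map_pow]
    exact (hP.mul _ _).2 ((hP.pow _ _ ha).2 hμ)
  | zero => rw [map_zero]; exact Submodule.zero_mem _
  | add x y _ _ hx hy => rw [map_add]; exact Submodule.add_mem _ hx hy
  | smul r x _ hx => rw [map_smul]; exact Submodule.smul_mem _ _ hx

lemma gen_of_tspan (hp0 : (p : W.K) ≠ 0) (σ : W.K →+* ℂ) {P : ℂ → Prop} (hP : Inv p P)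
    {w : W.H (X.prod Z)} (hw : w ∈ TSpan Φ (X.prod Z)) {x : W.H X}
    (hx : x ∈ Gen Φ σ P X) : W.corr w x ∈ Gen Φ σ P Z := by
  refine TSpan.ind (q := fun w => W.corr w x ∈ Gen Φ σ P Z) ?_ ?_ ?_ ?_ hw
  · intro j w hw
    exact gen_of_tate hp0 σ hP hw hx
  · rw [corr_zero]; exact Submodule.zero_mem _
  · intro a b ha hb
    rw [corr_add]; exact Submodule.add_mem _ ha hb
  · intro c a ha
    rw [corr_smul]; exact Submodule.smul_mem _ _ ha

lemma gen_of_as (hp0 : (p : W.K) ≠ 0) (σ : W.K →+* ℂ) {P : ℂ → Prop} (hP : Inv p P)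
    {w : W.H (X.prod Z)} (hw : AS W (X.prod Z) w) {x : W.H X}
    (hx : x ∈ Gen Φ σ P X) : W.corr w x ∈ Gen Φ σ P Z :=
  gen_of_tspan hp0 σ hP (alg_le_trueTate Φ _ (AS.mem_algSpan hw)) hx

/-- no such eigenvalues -/
lemma gen_eq_bot [IsAlgClosed W.K] (σ : W.K →+* ℂ) {P : ℂ → Prop} (hP : Inv p P)
    (h : ∀ ν, Module.End.HasEigenvalue (W.map (Φ.Fr Z)).toLinearMap ν → ¬ P (σ ν)) :
    Gen Φ σ P Z = ⊥ := by
  unfold Gen
  rw [Submodule.span_eq_bot]
  rintro x ⟨s, μ, hs, hμ, hx⟩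
  by_contra hx0
  have h1 := hasEigenvalue_of_gen hx hx0
  rw [frob_pow_eq', Module.End.hasEigenvalue_iff_mem_spectrum,
    spectrum.map_pow_of_pos _ hs] at h1
  obtain ⟨ν, hν, hνs⟩ := h1
  have hνs : ν ^ s = μ := hνs
  refine h ν (Module.End.hasEigenvalue_iff_mem_spectrum.2 hν) ?_
  rw [← hνs, map_pow] at hμ
  exact (hP.pow _ _ hs).1 hμ

/-- **The operators given by Tate classes factor.** -/
lemma factor [IsAlgClosed W.K] (hp : p ≠ 0) (hp0 : (p : W.K) ≠ 0) (σ : W.K →+* ℂ)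
    {D : Finset ℂ} (hD : ∀ b ∈ D, b ≠ 0)
    {PR PB : ℂ → Prop} (hPR : Inv p PR)
    (hsep : ∀ z, PR z → PB z → ID.InGroup p D z)
    (hX : ∀ ν, Module.End.HasEigenvalue (W.map (Φ.Fr X)).toLinearMap ν → PR (σ ν))
    (hZ : ∀ ν, Module.End.HasEigenvalue (W.map (Φ.Fr Z)).toLinearMap ν → PB (σ ν))
    {r : ℕ} {u : Fin r → W.H (Y.prod X)} {v : Fin r → W.H (X.prod Y)}
    (hu : ∀ i, AS W (Y.prod X) (u i)) (hv : ∀ i, AS W (X.prod Y) (v i))
    (huv : ∀ (μ : W.K) (x : W.H X), ID.InGroup p D (σ μ) →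
      x ∈ Module.End.maxGenEigenspace (W.map (Φ.Fr X)).toLinearMap μ →
        ∑ i, W.corr (u i) (W.corr (v i) x) = x)
    {w : W.H (X.prod Z)} (hw : w ∈ TSpan Φ (X.prod Z)) (x : W.H X) :
    W.corr w (∑ i, W.corr (u i) (W.corr (v i) x)) = W.corr w x := by
  have hPD : Inv p (fun z => ID.InGroup p D z) := inv_group hp hD
  have hP := hPR.and hPD.not
  have hbot : Gen Φ σ (fun z => PR z ∧ ¬ ID.InGroup p D z) Z = ⊥ :=
    gen_eq_bot σ hP fun ν hν h => h.2 (hsep _ h.1 (hZ ν hν))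
  have hx := span_gen_top (W.map (Φ.Fr X)).toLinearMap x
  induction hx using Submodule.span_induction with
  | mem x hx =>
    obtain ⟨μ, hμ⟩ := hx
    by_cases hD' : ID.InGroup p D (σ μ)
    · rw [huv μ x hD' hμ]
    · by_cases hx0 : x = 0
      · rw [hx0]
        simp
      · have h1 := hX μ (hasEigenvalue_of_gen hμ hx0)
        have h2 : x ∈ Gen Φ σ (fun z => PR z ∧ ¬ ID.InGroup p D z) X := by
          refine Submodule.subset_span ⟨1, μ, one_pos, ⟨h1, hD'⟩, ?_⟩
          rw [frob_pow_eq', pow_one]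
          exact hμ
        have h3 : ∑ i, W.corr (u i) (W.corr (v i) x) ∈
            Gen Φ σ (fun z => PR z ∧ ¬ ID.InGroup p D z) X :=
          Submodule.sum_mem _ fun i _ => gen_of_as hp0 σ hP (hu i) (gen_of_as hp0 σ hP (hv i) h2)
        have h4 := gen_of_tspan hp0 σ hP hw h3
        have h5 := gen_of_tspan hp0 σ hP hw h2
        rw [hbot, Submodule.mem_bot] at h4 h5
        rw [h4, h5]
  | zero => simp
  | add x y _ _ hx hy =>
    simp only [map_add, Finset.sum_add_distrib] at hx hy ⊢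
    rw [hx, hy]
  | smul c x _ hx =>
    have h1 : ∑ i, W.corr (u i) (W.corr (v i) (c • x)) =
        c • ∑ i, W.corr (u i) (W.corr (v i) x) := by
      rw [Finset.smul_sum]
      exact Finset.sum_congr rfl fun i _ => by rw [map_smul, map_smul]
    rw [h1, map_smul, hx, map_smul]

variable {f : Module.End W.K (W.H X)} {e : Module.End W.K (W.H Z)}

lemma summand_op (hf : IsSummand W X f) : f ∈ (algSys W).Op X X := by
  obtain ⟨c, hc, rfl⟩ := hf.algebraic
  exact mem_Op.2 ⟨c, AS.mem_algSpan hc, rfl⟩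

/-- **The Tate conjecture for `X × Z` from the one for `Y × Z`.** -/
theorem ncTate_part [IsAlgClosed W.K] (hp : p ≠ 0) (hp0 : (p : W.K) ≠ 0) (σ : W.K →+* ℂ)
    {D : Finset ℂ} (hD : ∀ b ∈ D, b ≠ 0)
    {PR PB : ℂ → Prop} (hPR : Inv p PR)
    (hsep : ∀ z, PR z → PB z → ID.InGroup p D z)
    (hX : ∀ ν, Module.End.HasEigenvalue (W.map (Φ.Fr X)).toLinearMap ν → PR (σ ν))
    (hZ : ∀ ν, Module.End.HasEigenvalue (W.map (Φ.Fr Z)).toLinearMap ν → PB (σ ν))
    (hXY : ComesFrom Φ σ D Y X) (hf : IsSummand W X f) (he : IsSummand W Z e)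
    (hY : NCTate Φ (Y.prod Z) (extOp W 1 e)) :
    NCTate Φ (X.prod Z) (extOp W f e) := by
  obtain ⟨r, u, v, hu, hv, huv⟩ := hXY
  intro w hw
  obtain ⟨hw1, hw2⟩ := mem_tateClasses.1 hw
  have hev : Ev W e := Op.ev (summand_op he)
  -- the operator of `w`
  have hew : e ∘ₗ W.corr w = W.corr w := by
    obtain ⟨f', hf', hadj⟩ := Op.exists_adj (summand_op hf)
    have h1 := corr_extOp hadj (Op.ev hf') hev w
    rw [hw2] at h1
    conv_rhs => rw [h1]
    conv_lhs => rw [h1]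
    apply LinearMap.ext
    intro x
    exact he.idempotent _
  have hfac := fun x => factor (Φ := Φ) hp hp0 σ hD hPR hsep hX hZ hu hv huv hw1 x
  -- the classes on `Y × Z`
  have hT : ∀ i, ∃ t ∈ algSpan W (Y.prod Z), W.corr t = W.corr w ∘ₗ W.corr (u i) := by
    intro i
    have h1 := corr_comp' (u i) ((trueTateSys Φ).even hw1)
    refine ⟨_, ?_, h1⟩
    set t := W.push (p13 Y X Z) (W.map (p12 Y X Z) (u i) * W.map (p23 Y X Z) w) with ht
    have h2 : t ∈ TSpan Φ (Y.prod Z) :=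
      comp_mem (S := trueTateSys Φ) (alg_le_trueTate Φ _ (AS.mem_algSpan (hu i))) hw1
    have h3 : extOp W 1 e t = t := by
      have h4 : W.corr (extOp W 1 e t) = W.corr t := by
        rw [corr_extOp (a := (1 : Module.End W.K (W.H Y))) (a' := 1) (fun a b => rfl) Ev.id hev t,
          h1]
        apply LinearMap.ext
        intro x
        exact LinearMap.congr_fun hew (W.corr (u i) x)
      have h5 : W.corr (extOp W 1 e t - t) = 0 := by
        have h6 := (Pool.Agent.Y133.Half.corrL W Y Z).map_sub (extOp W 1 e t) t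
        change W.corr (extOp W 1 e t - t) = W.corr (extOp W 1 e t) - W.corr t at h6
        rw [h6, h4, sub_self]
      exact sub_eq_zero.1 (corr_inj h5)
    exact (kZero_fixed (hY (mem_tateClasses.2 ⟨h2, h3⟩))).1
  choose t ht1 ht2 using hT
  have hZ' : ∀ i, ∃ z ∈ algSpan W (X.prod Z), W.corr z = W.corr (t i) ∘ₗ W.corr (v i) := by
    intro i
    have h1 := corr_comp' (v i) ((algSys W).even (ht1 i))
    exact ⟨_, comp_mem (S := algSys W) (AS.mem_algSpan (hv i)) (ht1 i), h1⟩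
  choose z hz1 hz2 using hZ'
  have hsum : w = ∑ i, z i := by
    have h1 : W.corr (w - ∑ i, z i) = 0 := by
      change Pool.Agent.Y133.Half.corrL W X Z (w - ∑ i, z i) = 0
      rw [map_sub, map_sum, sub_eq_zero]
      apply LinearMap.ext
      intro x
      rw [LinearMap.sum_apply]
      change W.corr w x = ∑ i, W.corr (z i) x
      rw [← hfac x, map_sum]
      refine Finset.sum_congr rfl fun i _ => ?_
      rw [hz2 i, ht2 i]
      rfl
    exact sub_eq_zero.1 (corr_inj h1)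
  rw [← hw2]
  refine (hf.prod he).kZero ?_
  rw [hsum]
  exact Submodule.sum_mem _ fun i _ => hz1 i

/-- The external product is determined by its values. -/
lemma tensor_eq {f₀ : W.H X → W.H X} {e₀ : W.H Z → W.H Z} (hf : ∀ x, f x = f₀ x)
    (he : ∀ x, e x = e₀ x) {h : W.H (X.prod Z) → W.H (X.prod Z)} (hh : IsTensor W f₀ e₀ h)
    (x : W.H (X.prod Z)) : extOp W f e x = h x := by
  obtain ⟨h1, h2⟩ := hh
  let hl : Module.End W.K (W.H (X.prod Z)) :=
    { toFun := h
      map_add' := fun x y => by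
        have := h1 1 x y
        rwa [one_smul, one_smul] at this
      map_smul' := fun r x => by
        have h0 : h 0 = 0 := by
          have := h1 1 0 0
          rw [one_smul, one_smul, add_zero] at this
          exact left_eq_add.1 this
        have := h1 r x 0
        rw [add_zero, h0, add_zero] at this
        exact this }
  have hh' : hl = extOp W f e := by
    apply ext_kunneth_lin
    intro a b
    refine (h2 a b).trans ?_
    rw [← hf, ← he, ext, extOp_tmul]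
  rw [← hh']
  rfl

/-- the same for functions -/
theorem nc_part [IsAlgClosed W.K] (hp : p ≠ 0) (hp0 : (p : W.K) ≠ 0) (σ : W.K →+* ℂ)
    {D : Finset ℂ} (hD : ∀ b ∈ D, b ≠ 0)
    {PR PB : ℂ → Prop} (hPR : Inv p PR)
    (hsep : ∀ z, PR z → PB z → ID.InGroup p D z)
    (hX : ∀ ν, Module.End.HasEigenvalue (W.map (Φ.Fr X)).toLinearMap ν → PR (σ ν))
    (hZ : ∀ ν, Module.End.HasEigenvalue (W.map (Φ.Fr Z)).toLinearMap ν → PB (σ ν))
    (hXY : ComesFrom Φ σ D Y X) {f : W.H X → W.H X} {e : W.H Z → W.H Z}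
    (hf : IsMotive W X f) (he : IsMotive W Z e)
    {h : W.H (X.prod Z) → W.H (X.prod Z)} (hh : IsTensor W f e h)
    {h' : W.H (Y.prod Z) → W.H (Y.prod Z)} (hh' : IsTensor W (fun y => y) e h')
    (hY : NCTateConj Φ (Y.prod Z) h') : NCTateConj Φ (X.prod Z) h := by
  obtain ⟨f', hf1, hf2⟩ := motive_lin hf
  obtain ⟨e', he1, he2⟩ := motive_lin he
  rw [nc_iff (Φ := Φ) (tensor_eq (f := (1 : Module.End W.K (W.H Y))) (fun x => rfl) he1 hh')] at hY
  rw [nc_iff (Φ := Φ) (tensor_eq hf1 he1 hh)]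
  exact ncTate_part hp hp0 σ hD hPR hsep hX hZ hXY hf2 he2 hY

end Pool.Agent.L5helper19.NT
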