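import Pool.Agent.L5helper19.NT.Sep
import Pool.Agent.L5helper19.NT.Det
import Pool.Agent.L5helper29.AA.FinM
import Pool.Agent.L5helper6.AA.SieveG
import Pool.Agent.L5helper6.AA.Irr0
import Pool.Agent.L5helper6.AA.Spl0
import Pool.Agent.L5helper6.AA.Lin0
import Pool.Agent.L5helper30.AA.Dens
import Pool.Agent.L5helper7.AA.Primes
import Pool.Agent.L5helper19.AA.Patm
import Pool.Agent.W806.MF.DENS
import Pool.Agent.W337.MF.Orb
import Pool.Agent.W366.MF.WInj
import Pool.Agent.W205.MF.CNT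

/-!
# Tensor products of noncommutative motives with almost all members of families
-/

set_option autoImplicit false
set_option linter.all false

open CategoryTheory AlgebraicGeometry Polynomial NumberField

universe u v

namespace Pool.Agent.L5helper19.NT

open Pool.Agent.H914 Pool.Agent.H914.VarClass Pool.Agent.H914.VarClass.Obj
  Pool.Agent.H914.WeilCohomology Pool.Agent.H281R3.HT Pool.Agent.W552 Pool.Agent.W534
  Pool.Agent.TH121.KT Pool.Agent.L5helper29.NC Pool.Agent.L5helper29 Pool.Agent.L5helper29.AA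
  Pool.Agent.L5helper29.ID Pool.Agent.W458.RK

variable {k : Type u} [Field k] {𝒱 : VarClass k} {ops : CycleOps 𝒱}
  {W : WeilCohomology.{u, v} ops} {p : ℕ} {Φ : FrobSystem W p}

lemma g_ne_zero (hp : p ≠ 0) {B : Finset ℂ} (hB : ∀ b ∈ B, b ≠ 0) {z : ℂ} (hz : InGroup p B z) :
    z ≠ 0 := by
  obtain ⟨N, b, n, hN, h⟩ := hz
  rintro rfl
  rw [zero_pow hN.ne'] at h
  have hpC : (p : ℂ) ≠ 0 := by exact_mod_cast hp
  exact mul_ne_zero (zpow_ne_zero _ hpC)
    (Finset.prod_ne_zero_iff.2 fun x hx => zpow_ne_zero _ (hB x hx)) h.symm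

section member

variable {J J' : Type} [Fintype J] [DecidableEq J] [Fintype J'] [DecidableEq J']

/-- The theorem for a member, in terms of the relations. -/
theorem member [IsAlgClosed W.K] (hp : 1 < p) (σ : W.K →+* ℂ) {a : ℕ} (ha : 0 < a)
    {A : J → Finset ℂ} {A' : J' → Finset ℂ} {B D : Finset ℂ} (rel : RelM (p ^ a) A A' B)
    (h0 : ∀ o, ∀ x ∈ both A A' o, x ≠ 0)
    (hB0 : ∀ b ∈ B, b ≠ 0) (hD0 : ∀ b ∈ D, b ≠ 0)
    (hd : ∀ i, ∀ x ∈ A' i, ((p ^ a : ℕ) : ℂ) / x ∈ A' i)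
    (hdet : ∀ j, ∃ d ∈ D, (∏ x ∈ A j, x) ^ 2 = d ^ 2) :
    TensorTate Φ σ (allOf A A') D B := by
  have hp0 : p ≠ 0 := by omega
  have hpC : (p : ℂ) ≠ 0 := by exact_mod_cast hp0
  have hpK : (p : W.K) ≠ 0 := by
    intro h
    apply hpC
    rw [← map_natCast σ, h, map_zero]
  have hR0 : ∀ x ∈ allOf A A', x ≠ 0 := by
    intro x hx
    obtain ⟨o, ho⟩ := mem_allOf.1 hx
    exact h0 o x ho
  have hdetD : ∀ j, InGroup p D (∏ x ∈ A j, x) := by
    intro j
    obtain ⟨d, hd, h⟩ := hdet j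
    refine g_of_pow two_pos ?_
    rw [h]
    exact g_pow hp0 hD0 (g_mem hd) 2
  intro X Z hX hZ f e hf he
  -- the tensor product
  obtain ⟨f', hf1, hf2⟩ := motive_lin hf
  obtain ⟨e', he1, he2⟩ := motive_lin he
  refine ⟨⟨extOp W f' e', fun r x y => by rw [map_add, map_smul], fun a t => by
    rw [Pool.Agent.H281R3.HT.ext, extOp_tmul, hf1, he1]; rfl⟩, fun h hh => ⟨?_, ?_, ?_⟩⟩
  · obtain ⟨⟨c, hc, hcf⟩, hid⟩ := hf2.prod he2
    have hh' : ∀ x, extOp W f' e' x = h x := tensor_eq hf1 he1 hh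
    refine ⟨⟨c, hc, fun x => ?_⟩, fun x => ?_⟩
    · rw [← hh', ← hcf]
      rfl
    · rw [← hh', ← hh', hid]
  · -- the relative statement
    intro Y h' hh' hXY
    have hsep : ∀ z, InGroup p (allOf A A') z → InGroup p B z → InGroup p D z := by
      intro z hz hz'
      exact sep_core hp ha rel h0 hB0 hD0 hd hdetD hz (g_inv hz') one_pos (l := 0) (by
        rw [mul_inv_cancel₀ (g_ne_zero hp0 hB0 hz')]; simp)
    refine ⟨fun hY => nc_part hp0 hpK σ hD0 (inv_group hp0 hR0) hsep hX hZ hXY hf he hh hh' hY,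
      fun hfid hYD hYX hXZ => ?_⟩
    refine nc_part (Φ := Φ) (X := Y) (Y := X) (f := fun y => y) hp0 hpK σ hD0
      (inv_group hp0 hD0) (PB := fun z => InGroup p B z) (fun z hz _ => hz) hYD hZ hYX ?_ he hh'
      (h' := h) ?_ hXZ
    · obtain ⟨c, hc, hcf⟩ := AOp.one (W := W) (X := Y)
      exact ⟨⟨c, hc, fun x => (LinearMap.congr_fun hcf x).symm⟩, fun x => rfl⟩
    · refine ⟨hh.1, fun a t => ?_⟩
      rw [hh.2, hfid]
  · -- supersingular determinants
    intro hsup hTX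
    have hdet0 : ∀ j, InGroup p (∅ : Finset ℂ) (∏ x ∈ A j, x) := by
      intro j
      obtain ⟨d, hd, h⟩ := hdet j
      obtain ⟨M, l, hM, h1⟩ := hsup d hd
      refine ⟨2 * M, 2 * l, fun _ => 0, by omega, ?_⟩
      rw [pow_mul, h, ← pow_mul, mul_comm 2 M, pow_mul, h1, Finset.prod_empty, mul_one,
        ← zpow_natCast, ← zpow_mul]
      congr 1
      push_cast
      ring
    have hT : TateTimesP Φ (fun ν => InGroup p B (σ ν)) X := by
      refine tateTimesP_sep (PX := fun z => InGroup p (allOf A A') z)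
        (PB := fun z => InGroup p B z) σ (fun z n hn h => g_pow hp0 hR0 h n) ?_ hX hTX
      intro z w hz hw N l hN h
      exact g_empty (sep_core hp ha rel h0 hB0 (D := ∅) (by simp) hd hdet0 hz hw hN h)
    have hfin := final_of_times hp hT (by rw [map_one]; exact g_one)
      (fun ν n hn h => by rw [map_pow]; exact g_pow hp0 hB0 h n) hZ hf he
    exact ⟨(hfin.2 h hh).2.1, (hfin.2 h hh).2.2⟩

end member

variable {K : Type} [Field K] [NumberField K] {τ : K →+* ℂ} {q : ℕ} {J J' : Type}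
    [Fintype J] [Fintype J'] {N : J → ℕ} {g : J' → ℕ}
    {S : ℕ → Type} [∀ n, Fintype (S n)] {P : ∀ n, S n → J → (𝓞 K)[X]}
    {h : ∀ n, S n → J' → ℤ[X]} {δ : ℕ → J → 𝓞 K}

lemma prod_toFinset {S : Multiset ℂ} (h : S.Nodup) : ∏ x ∈ S.toFinset, x = S.prod := by
  rw [Finset.prod_multiset_count]
  refine Finset.prod_congr rfl fun x hx => ?_
  rw [Multiset.count_eq_one_of_mem h (Multiset.mem_toFinset.1 hx), pow_one]

lemma mem_rtsZ {f : ℤ[X]} {x : ℂ} (hx : x ∈ rtsZ f) : aeval x f = 0 := by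
  unfold rtsZ at hx
  rw [Multiset.mem_toFinset] at hx
  have h1 := (mem_roots'.1 hx).2
  rw [IsRoot, Polynomial.eval_map] at h1
  exact h1

/-- **Almost all members.** -/
theorem almost_members [IsAlgClosed W.K] (hp : 1 < p) (σ : W.K →+* ℂ) {r : ℕ} (hr : 0 < r)
    (hq : q = p ^ r) (hF : BigFamily τ q N g S P h δ) (B : Finset ℂ)
    (hB : ∀ b ∈ B, b ≠ 0 ∧ IsIntegral ℤ b) (ε : ℝ) (hε : 0 < ε) :
    ∃ n₀ : ℕ, ∀ n ≥ n₀, ({s : S n | ¬ TensorTate Φ σ (rootSet τ (P n s) (h n s) (q ^ n))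
      (constSet τ (P n s)) B}.ncard : ℝ) ≤ ε * (Nat.card (S n) : ℝ) := by
  classical
  have hq1 : 1 < q := by rw [hq]; exact Nat.one_lt_pow hr.ne' hp
  obtain ⟨n₀, hn₀⟩ := almost_relM Pool.Agent.L5helper6.AA.sieveg
    (Pool.Agent.L5helper30.AA.dens Pool.Agent.L5helper6.AA.irr0 Pool.Agent.L5helper6.AA.spl0
      Pool.Agent.L5helper6.AA.lin0)
    (Pool.Agent.W806.MF.dens Pool.Agent.W337.MF.orb Pool.Agent.W366.MF.winj
      Pool.Agent.W205.MF.cnt) Pool.Agent.L5helper7.AA.PRIMES Pool.Agent.L5helper19.AA.PATM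
    hq1 hF B hB ε hε
  refine ⟨max n₀ 1, fun n hn => le_trans ?_ (hn₀ n (le_of_max_le_left hn))⟩
  have hn1 : 1 ≤ n := le_of_max_le_right hn
  have hQ : q ^ n = p ^ (r * n) := by rw [hq, pow_mul]
  have hpos : 0 < r * n := Nat.mul_pos hr hn1
  have hsqrt : (0 : ℝ) < Real.sqrt ((q ^ n : ℕ) : ℝ) :=
    Real.sqrt_pos.2 (by exact_mod_cast pow_pos (by omega) n)
  refine Nat.cast_le.2 (Set.ncard_le_ncard ?_ (Set.toFinite _))
  intro s hs hgood
  apply hs
  obtain ⟨hrel, hcard, hcard', hd⟩ := hgood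
  have hrt : ∀ j, ∀ x ∈ rts τ (P n s j), x ≠ 0 := by
    rintro j x hx rfl
    have h1 := hF.norm n s j 0 ((mem_rts (hF.monic n s j)).1 hx)
    rw [norm_zero] at h1
    exact hsqrt.ne h1
  have hrt' : ∀ i, ∀ x ∈ rtsZ (Pool.Agent.W521.Frob.weil (q ^ n) (h n s i)), x ≠ 0 := by
    rintro i x hx rfl
    have h1 := hF.norm' n s i 0 (mem_rtsZ hx)
    rw [norm_zero] at h1
    exact hsqrt.ne h1
  -- the determinants
  have hdet : ∀ j, (∏ x ∈ rts τ (P n s j), x) ^ 2 = (τ ((P n s j).coeff 0 : K)) ^ 2 := by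
    intro j
    have hm := hF.monic n s j
    set f := (P n s j).map (τ.comp (algebraMap (𝓞 K) K)) with hf
    have hfm : f.Monic := hm.map _
    have hsp : f.Splits := IsAlgClosed.splits f
    have hcf : f.roots.card = N j := by
      rw [← hsp.natDegree_eq_card_roots, hf, hm.natDegree_map, hF.natDegree]
    have hnd : f.roots.Nodup := by
      rw [← Multiset.dedup_eq_self]
      refine Multiset.eq_of_le_of_card_le (Multiset.dedup_le _) ?_
      have h1 := hcard j
      unfold rts at h1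
      rw [← hf, Multiset.card_toFinset] at h1
      rw [hcf, h1]
    have h1 : ∏ x ∈ rts τ (P n s j), x = f.roots.prod := by
      unfold rts
      rw [← hf]
      exact prod_toFinset hnd
    have h2 : f.coeff 0 = (-1) ^ f.natDegree * f.roots.prod := by
      exact hsp.coeff_zero_eq_prod_roots_of_monic hfm
    have h3 : f.coeff 0 = τ ((P n s j).coeff 0 : K) := by
      rw [hf, coeff_map]
      rfl
    rw [h1, ← h3, h2, mul_pow, ← pow_mul, mul_comm f.natDegree 2, pow_mul]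
    norm_num
  have hmain := member (Φ := Φ) (A := fun j => rts τ (P n s j))
    (A' := fun i => rtsZ (Pool.Agent.W521.Frob.weil (q ^ n) (h n s i))) (B := B)
    (D := constSet τ (P n s)) hp σ hpos (by rw [← hQ]; exact hrel) (by
      rintro (j | i) x hx
      · exact hrt j x hx
      · exact hrt' i x hx) (fun b hb => (hB b hb).1) ?_ (fun i x hx => by
        rw [← hQ]
        exact (hd i x hx).1) (fun j => ⟨_, Finset.mem_image_of_mem _ (Finset.mem_univ j), hdet j⟩)
  · exact hmain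
  · intro d hdD
    obtain ⟨j, -, rfl⟩ := Finset.mem_image.1 hdD
    intro h0
    have h1 := hdet j
    rw [h0, zero_pow two_ne_zero, sq_eq_zero_iff, Finset.prod_eq_zero_iff] at h1
    obtain ⟨x, hx, hx0⟩ := h1
    exact hrt j x hx hx0

end Pool.Agent.L5helper19.NT
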