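import Pool.Agent.L5helper29.NC.Fin

/-!
# Products with varieties whose Frobenius eigenvalues are separated from a given group
-/

set_option autoImplicit false
set_option linter.all false

open CategoryTheory AlgebraicGeometry
open scoped TensorProduct

universe u v

namespace Pool.Agent.L5helper19.NT

open Pool.Agent.H914 Pool.Agent.H914.VarClass Pool.Agent.H914.VarClass.Obj
  Pool.Agent.H914.WeilCohomology Pool.Agent.H281R3.HT Pool.Agent.W552 Pool.Agent.W534
  Pool.Agent.W458.RK Pool.Agent.W458.MF Pool.Agent.TH132.A Pool.Agent.TH121.KT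
  Pool.Agent.L5helper29.NC Pool.Agent.L5helper29

variable {k : Type u} [Field k] {𝒱 : VarClass k} {ops : CycleOps 𝒱}
  {W : WeilCohomology.{u, v} ops} {X Z U : 𝒱.Obj} {p : ℕ} {Φ : FrobSystem W p}

/-- **The Tate conjecture for the products of `X` with all separated varieties.** -/
theorem tateTimesP_sep [IsAlgClosed W.K] (σ : W.K →+* ℂ) {PX PB : ℂ → Prop}
    (hPX : ∀ z (n : ℕ), 0 < n → PX z → PX (z ^ n))
    (hsep : ∀ z w : ℂ, PX z → PB w → ∀ (N : ℕ) (l : ℤ), 0 < N → (z * w) ^ N = (p : ℂ) ^ l →
      ∃ (M : ℕ) (l' : ℤ), 0 < M ∧ z ^ M = (p : ℂ) ^ l')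
    (hX : ∀ μ, Module.End.HasEigenvalue (W.map (Φ.Fr X)).toLinearMap μ → PX (σ μ))
    (hTX : SupersingularAlgebraic Φ X) :
    TateTimesP Φ (fun ν => PB (σ ν)) X := by
  classical
  intro s hs V _ _ _ T hT c a x hx
  have hQ : (card Φ X s : W.K) ≠ 0 := card_ne Φ s
  refine (tensor_killed (F := frob Φ X s) (G := T) (card Φ X s : W.K) hQ c (fun i => cycSub W X i)
    (fun i y hy => cyc_killed Φ hy) ?_ a x).1 hx
  intro μ ν N hN hν hrel
  refine le_trans ?_ algSpan_le_cyc
  by_cases hμ : Module.End.HasEigenvalue (frob Φ X s) μ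
  swap
  · have h1 : Module.End.maxGenEigenspace (frob Φ X s) μ = ⊥ := by
      by_contra hne
      apply hμ
      have h2 : (frob Φ X s).HasUnifEigenvalue μ ⊤ := hne
      exact h2.lt one_pos
    rw [h1]
    exact bot_le
  have hμ' := hμ
  rw [frob_pow_eq', Module.End.hasEigenvalue_iff_mem_spectrum, spectrum.map_pow_of_pos _ hs] at hμ'
  obtain ⟨μ₀, hμ₀, hμs⟩ := hμ'
  have hμs : μ₀ ^ s = μ := hμs
  have hPμ : PX (σ μ) := by
    rw [← hμs, map_pow]
    exact hPX _ s hs (hX μ₀ (Module.End.hasEigenvalue_iff_mem_spectrum.2 hμ₀))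
  obtain ⟨M, l', hM, hl'⟩ := hsep _ _ hPμ (hT ν hν) N (((Φ.e X * s : ℕ) : ℤ) * c * N) hN (by
    have h1 := congrArg σ hrel
    rw [map_pow, map_mul, map_pow, map_zpow₀, map_natCast, W534.card] at h1
    rw [h1, zpow_mul, zpow_mul, zpow_natCast, zpow_natCast]
    push_cast
    rfl)
  refine hTX s hs μ M l' hM ?_
  apply σ.injective
  rw [map_pow, map_zpow₀, map_natCast, hl']

/-- **Consequences.** -/
theorem final_of_times [IsAlgClosed W.K] (hp : 1 < p) {PP : W.K → Prop}
    (hT : TateTimesP Φ PP X) (h1PP : PP 1) (hpow : ∀ ν (n : ℕ), 0 < n → PP ν → PP (ν ^ n))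
    (hU : ∀ ν, Module.End.HasEigenvalue (W.map (Φ.Fr U)).toLinearMap ν → PP ν)
    {f : W.H X → W.H X} {e : W.H U → W.H U}
    (hf : IsMotive W X f) (he : IsMotive W U e) :
    (∃ h, IsTensor W f e h) ∧ ∀ h, IsTensor W f e h → IsMotive W (X.prod U) h ∧
      (∀ w, IsTateClass Φ (X.prod U) h w ↔ w ∈ Submodule.span W.K
        {w | ∃ a t, IsKZeroClass W X f a ∧ IsTateClass Φ U e t ∧ w = ext W a t}) ∧
      (NCTateConj Φ (X.prod U) h ↔ (∀ a, IsKZeroClass W X f a → a = 0) ∨
        NCTateConj Φ U e) := by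
  obtain ⟨f', hf1, hf2⟩ := motive_lin hf
  obtain ⟨e', he1, he2⟩ := motive_lin he
  have g1 := hf2.prod he2
  have g2 := tateClasses_prod hT hpow hU hf2 he2
  have g3 := ncTate_prod hp hT h1PP hpow hU hf2 he2
  have hten : ∀ a t, extOp W f' e' (ext W a t) = ext W (f a) (e t) := by
    intro a t
    rw [ext, extOp_tmul, hf1, he1]
    rfl
  have hK : ∀ a, IsKZeroClass W X f a ↔ (AS W X a ∧ f' a = a) := by
    intro a
    rw [hf1]
    rfl
  have hbot : kZeroClasses W X f' = ⊥ ↔ ∀ a, IsKZeroClass W X f a → a = 0 := by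
    rw [kZeroClasses, Submodule.span_eq_bot]
    exact forall_congr' fun a => by rw [hK]; rfl
  refine ⟨⟨extOp W f' e', fun r x y => by rw [map_add, map_smul], hten⟩, ?_⟩
  rintro h ⟨h1, h2⟩
  let hl : Module.End W.K (W.H (X.prod U)) :=
    { toFun := h
      map_add' := fun x y => by
        have := h1 1 x y
        rwa [one_smul, one_smul] at this
      map_smul' := fun r x => by
        have h0 : h 0 = 0 := by
          have := h1 1 0 0
          rw [one_smul, one_smul, add_zero] at this
          exact left_eq_add.1 this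
        have := h1 r x 0
        rw [add_zero, h0, add_zero] at this
        exact this }
  have hh : hl = extOp W f' e' := by
    apply ext_kunneth_lin
    intro a b
    exact (h2 a b).trans (hten a b).symm
  have hh' : ∀ x, extOp W f' e' x = h x := fun x => by rw [← hh]; rfl
  obtain ⟨⟨c, hc, hcf⟩, hid⟩ := g1
  refine ⟨⟨⟨c, hc, fun x => ?_⟩, fun x => ?_⟩, fun w => ?_, ?_⟩
  · rw [← hh', ← hcf]
    rfl
  · rw [← hh', ← hh', hid]
  · have e1 : IsTateClass Φ (X.prod U) h w ↔ w ∈ tateClasses Φ (X.prod U) (extOp W f' e') := by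
      rw [mem_tateClasses, hh']
      rfl
    rw [e1, g2]
    clear e1
    constructor
    · intro hw
      unfold products at hw
      induction hw using Submodule.span_induction with
      | mem w hw =>
        obtain ⟨a, ha, t, ht, rfl⟩ := hw
        have ht' : IsTateClass Φ U e t := by
          have := mem_tateClasses.1 ht
          rw [he1] at this
          exact this
        unfold kZeroClasses at ha
        induction ha using Submodule.span_induction with
        | mem a ha => exact Submodule.subset_span ⟨a, t, (hK a).2 ha, ht', rfl⟩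
        | zero => rw [map_zero, zero_mul]; exact Submodule.zero_mem _
        | add x y _ _ hx hy => rw [map_add, add_mul]; exact Submodule.add_mem _ hx hy
        | smul r x _ hx => rw [map_smul, smul_mul_assoc]; exact Submodule.smul_mem _ _ hx
      | zero => exact Submodule.zero_mem _
      | add x y _ _ hx hy => exact Submodule.add_mem _ hx hy
      | smul r x _ hx => exact Submodule.smul_mem _ _ hx
    · intro hw
      refine Submodule.span_mono ?_ hw
      rintro _ ⟨a, t, ha, ht, rfl⟩
      refine ⟨a, Submodule.subset_span ((hK a).1 ha), t, ?_, rfl⟩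
      refine mem_tateClasses.2 ?_
      rw [he1]
      exact ht
  · rw [nc_iff (Φ := Φ) hh', g3, hbot, nc_iff (Φ := Φ) he1]

end Pool.Agent.L5helper19.NT
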